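import Mathlib
import Pool.Agent.Work.MP_3a3367_nt_h29.STa
import Pool.Agent.Work.MP_3a3367_nt_h29.AVG
import Pool.Agent.Work.MP_b0c12c_nt_univ.Interface

/-!
# An upper bound for the gaps in the sieve with shifted classes: interface
-/

set_option autoImplicit false

namespace Pool.Agent.Work.MP_b0c12c_nt_upper

open Finset Filter MeasureTheory ProbabilityTheory
open Pool.Agent.Work.MP_b0c12c_nt_univ (EA ind IsLaw resV)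
open Pool.Agent.Work.MP_3a3367_nt_h29 (Sv PP NS)

/-- `√(log n · log log log n)`. -/
noncomputable def rt (n : ℕ) : ℝ := Real.sqrt (Real.log n * Real.log (Real.log (Real.log n)))

/-- the bound for the small primes -/
noncomputable def Wn (n : ℕ) : ℕ := ⌊Real.exp (1.45 * rt n)⌋₊

/-- the length of the window -/
noncomputable def Xn (n : ℕ) : ℕ := ⌊Real.exp (2.98 * rt n)⌋₊

/-- U1: a window is empty with small probability. -/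
def Stmt_U1 : Prop := ∀ (π : ℕ → ℕ → ℝ), IsLaw resV π → ∀ c₁ : ℝ, 0 < c₁ →
  (∃ P0 : ℕ, ∀ p : ℕ, p.Prime → P0 ≤ p →
    π p 0 ≤ 1 - c₁ / Real.log (Real.log p) ∧ π p 1 ≤ 1 / 2 ∧ π p (p - 1) ≤ 1 / 2 ∧
    ∀ b ∈ resV p, b ≠ 0 → b ≠ 1 → b ≠ p - 1 → π p b = 0) →
  ∃ n0 : ℕ, ∀ n : ℕ, n0 ≤ n → ∀ v v' : ℕ → ℕ,
    EA resV π (PP (Wn n) (Nat.sqrt (n + Xn n)))
      (ind {w | NS (PP (Wn n) (Nat.sqrt (n + Xn n))) (Sv (Wn n + 1) (Xn n) (n + 1) v) w < 1}) v' ≤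
      (n : ℝ) ^ (-2 : ℝ)

/-- The integers `n ≥ 2` with `n - u p` not divisible by `p` for any prime `p ≤ √n`. -/
def Sieve (u : ℕ → ℤ) : Set ℕ :=
  {n | 2 ≤ n ∧ ∀ p : ℕ, p.Prime → p * p ≤ n → ¬ (n : ℤ) ≡ u p [ZMOD p]}

/-- U2: almost surely all large windows contain a point of the sieve. -/
def Stmt_U2.{u} : Prop := ∀ {Ω : Type u} [MeasurableSpace Ω] {μ : Measure Ω}
  [IsProbabilityMeasure μ] {u : ℕ → Ω → ℤ}, (∀ p, Measurable (u p)) → iIndepFun u μ →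
  (∀ p : ℕ, p.Prime → ∀ᵐ ω ∂μ, u p ω = -1 ∨ u p ω = 0 ∨ u p ω = 1) →
  ∀ {c₁ c₂ : ℝ}, 0 < c₁ →
  (∀ᶠ p : ℕ in atTop, p.Prime → ∀ s : ℤ, s = 1 ∨ s = -1 →
      c₁ / Real.log (Real.log p) ≤ μ.real {ω | u p ω = s} ∧
      μ.real {ω | u p ω = s} ≤ c₂ / Real.log (Real.log p)) →
  ∀ᵐ ω ∂μ, ∀ᶠ n : ℕ in atTop, ∃ m ∈ Sieve fun p => u p ω, n < m ∧ m ≤ n + Xn n

/-- U3: gaps. -/
def Stmt_U3 : Prop := ∀ S : Set ℕ, (∀ᶠ n : ℕ in atTop, ∃ m ∈ S, n < m ∧ m ≤ n + Xn n) →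
  S.Infinite ∧ ∀ᶠ k : ℕ in atTop, (Nat.nth (· ∈ S) (k + 1) : ℝ) - (Nat.nth (· ∈ S) k : ℝ) ≤
    Real.exp (3 * Real.sqrt (Real.log (Nat.nth (· ∈ S) k) *
      Real.log (Real.log (Real.log (Nat.nth (· ∈ S) k)))))

end Pool.Agent.Work.MP_b0c12c_nt_upper
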