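import Mathlib
import Pool.Agent.Work.MP_b0c12c_nt_upper.Interface
import Pool.Agent.Work.MP_3a3367_nt_h29.MCD
import Pool.Agent.Work.MP_3a3367_nt_h29b.LOW

/-!
# A window of the sieve with shifted classes is empty with small probability
-/

set_option autoImplicit false

namespace Pool.Agent.Work.MP_b0c12c_nt_upper

open Finset Filter Topology
open Pool.Agent.Work.MP_b0c12c_nt_univ
open Pool.Agent.Work.MP_b0c12c_nt_univ.INUaux (Pr rp Av EA_Av rp_nonneg rp_le_one)
open Pool.Agent.Work.MP_3a3367_nt_h29 (Sv NS NS_eq mcd_tail card_class_le)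
open Pool.Agent.Work.MP_3a3367_nt_h29b (low)

/-- the alphabet restricted to the three classes -/
noncomputable def VV (P : Finset ℕ) (p : ℕ) : Finset ℕ := if p ∈ P then {0, 1, p - 1} else resV p

theorem sum_VV {π : ℕ → ℕ → ℝ} {P : Finset ℕ} (hP : ∀ p ∈ P, p.Prime ∧ 3 ≤ p)
    (hz : ∀ p ∈ P, ∀ b ∈ resV p, b ≠ 0 → b ≠ 1 → b ≠ p - 1 → π p b = 0) (p : ℕ) (f : ℕ → ℝ) :
    ∑ a ∈ VV P p, π p a * f a = ∑ a ∈ resV p, π p a * f a := by
  unfold VV
  split_ifs with h
  · apply sum_subset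
    · intro a ha
      have h3 := (hP p h).2
      unfold resV
      rw [if_pos (hP p h).1, mem_range]
      rw [mem_insert, mem_insert, mem_singleton] at ha
      omega
    · intro a ha hna
      rw [mem_insert, mem_insert, mem_singleton, not_or, not_or] at hna
      rw [hz p h a ha hna.1 hna.2.1 hna.2.2, zero_mul]
  · rfl

theorem isLaw_VV {π : ℕ → ℕ → ℝ} (hL : IsLaw resV π) {P : Finset ℕ}
    (hP : ∀ p ∈ P, p.Prime ∧ 3 ≤ p)
    (hz : ∀ p ∈ P, ∀ b ∈ resV p, b ≠ 0 → b ≠ 1 → b ≠ p - 1 → π p b = 0) : IsLaw (VV P) π := by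
  constructor
  · intro p a ha
    apply hL.nonneg p a
    unfold VV at ha
    split_ifs at ha with h
    · have h3 := (hP p h).2
      unfold resV
      rw [if_pos (hP p h).1, mem_range]
      rw [mem_insert, mem_insert, mem_singleton] at ha
      omega
    · exact ha
  · intro p
    have h1 := sum_VV hP hz p (fun _ => 1)
    simp only [mul_one] at h1
    rw [h1]
    exact hL.sum_one p

theorem EA_VV {π : ℕ → ℕ → ℝ} {P : Finset ℕ} (hP : ∀ p ∈ P, p.Prime ∧ 3 ≤ p)
    (hz : ∀ p ∈ P, ∀ b ∈ resV p, b ≠ 0 → b ≠ 1 → b ≠ p - 1 → π p b = 0) (A : Finset ℕ)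
    (F : (ℕ → ℕ) → ℝ) (v : ℕ → ℕ) : EA resV π A F v = EA (VV P) π A F v := by
  induction A using Finset.induction_on generalizing v with
  | empty => simp only [EA_empty]
  | insert q A hq ih =>
    rw [EA_insert hq, EA_insert hq]
    unfold E1
    simp only [ih]
    exact (sum_VV hP hz q (fun a => EA (VV P) π A F (Function.update v q a))).symm

theorem rp_VV {π : ℕ → ℕ → ℝ} {P : Finset ℕ} (hP : ∀ p ∈ P, p.Prime ∧ 3 ≤ p) {p : ℕ} (hp : p ∈ P)
    (m : ℕ) (hm : 1 ≤ m) (δ : ℝ) (hδ0 : 0 ≤ δ) (hδ1 : δ ≤ 1) (h0 : π p 0 ≤ 1 - δ)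
    (h1 : π p 1 ≤ 1 / 2) (h2 : π p (p - 1) ≤ 1 / 2) :
    (if p ∣ m then δ else 1) * (if p ∣ m - 1 then (1 / 2 : ℝ) else 1) *
      (if p ∣ m + 1 then (1 / 2 : ℝ) else 1) ≤ 1 - rp (VV P) π p m := by
  have h3 := (hP p hp).2
  have e0 : m ≡ 0 [MOD p] ↔ p ∣ m := Nat.modEq_zero_iff_dvd
  have e1 : m ≡ 1 [MOD p] ↔ p ∣ m - 1 := by
    rw [← Nat.modEq_iff_dvd' hm]
    exact ⟨fun h => h.symm, fun h => h.symm⟩
  have e2 : m ≡ p - 1 [MOD p] ↔ p ∣ m + 1 := by
    constructor
    · intro h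
      have h4 : m + 1 ≡ p - 1 + 1 [MOD p] := h.add_right 1
      have h5 : p - 1 + 1 = p := by omega
      rw [h5] at h4
      exact (Nat.modEq_zero_iff_dvd).1 (h4.trans ((Nat.modEq_zero_iff_dvd).2 dvd_rfl))
    · intro h
      have h4 : m + 1 ≡ p - 1 + 1 [MOD p] := by
        have h5 : p - 1 + 1 = p := by omega
        rw [h5]
        exact ((Nat.modEq_zero_iff_dvd).2 h).trans ((Nat.modEq_zero_iff_dvd).2 dvd_rfl).symm
      exact Nat.ModEq.add_right_cancel' 1 h4
  have hrp : rp (VV P) π p m = (if p ∣ m then π p 0 else 0) + ((if p ∣ m - 1 then π p 1 else 0) +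
      (if p ∣ m + 1 then π p (p - 1) else 0)) := by
    unfold rp VV
    rw [if_pos hp, sum_insert, sum_insert, sum_singleton]
    · simp only [e0, e1, e2]
    · rw [mem_singleton]; omega
    · rw [mem_insert, mem_singleton]; omega
  rw [hrp]
  by_cases c0 : p ∣ m
  · have c1 : ¬ p ∣ m - 1 := by
      intro h
      have h4 : p ∣ m - (m - 1) := Nat.dvd_sub c0 h
      have h5 : m - (m - 1) = 1 := by omega
      rw [h5] at h4
      have := Nat.le_of_dvd one_pos h4
      omega
    have c2 : ¬ p ∣ m + 1 := by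
      intro h
      have h4 : p ∣ (m + 1) - m := Nat.dvd_sub h c0
      have h5 : (m + 1) - m = 1 := by omega
      rw [h5] at h4
      have := Nat.le_of_dvd one_pos h4
      omega
    rw [if_pos c0, if_neg c1, if_neg c2, if_pos c0, if_neg c1, if_neg c2]
    linarith
  · rw [if_neg c0, if_neg c0]
    by_cases c1 : p ∣ m - 1
    · have c2 : ¬ p ∣ m + 1 := by
        intro h
        have h4 : p ∣ (m + 1) - (m - 1) := Nat.dvd_sub h c1
        have h5 : (m + 1) - (m - 1) = 2 := by omega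
        rw [h5] at h4
        have := Nat.le_of_dvd two_pos h4
        omega
      rw [if_pos c1, if_neg c2, if_pos c1, if_neg c2]
      linarith
    · rw [if_neg c1, if_neg c1]
      by_cases c2 : p ∣ m + 1
      · rw [if_pos c2, if_pos c2]
        linarith
      · rw [if_neg c2, if_neg c2]
        linarith

/-- few large prime factors -/
theorem card_dvd_le (P : Finset ℕ) (W N : ℕ) (hW : 1 ≤ W) (hP : ∀ p ∈ P, p.Prime ∧ W < p)
    (hN : 1 ≤ N) (B w : ℝ) (hNB : (N : ℝ) ≤ B) (hw : Real.log B ≤ w * Real.log W)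
    (hlog : 0 < Real.log W) :
    ((P.filter fun p => p ∣ N).card : ℝ) ≤ w := by
  have hWr : (1 : ℝ) ≤ W := by exact_mod_cast hW
  have h1 : ∏ p ∈ P.filter (fun p => p ∣ N), p ∣ N := by
    apply Finset.prod_primes_dvd
    · intro p hp
      exact (hP p (mem_filter.1 hp).1).1.prime
    · intro p hp
      exact (mem_filter.1 hp).2
  have h2 : ((∏ p ∈ P.filter (fun p => p ∣ N), p : ℕ) : ℝ) ≤ N := by
    exact_mod_cast Nat.le_of_dvd hN h1
  rw [Nat.cast_prod] at h2
  have h3 : (W : ℝ) ^ (P.filter fun p => p ∣ N).card ≤ ∏ p ∈ P.filter (fun p => p ∣ N), (p : ℝ) := by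
    rw [← prod_const]
    apply Finset.prod_le_prod
    · intro p _; positivity
    · intro p hp
      exact_mod_cast (hP p (mem_filter.1 hp).1).2.le
  have h4 : Real.log ((W : ℝ) ^ (P.filter fun p => p ∣ N).card) ≤ Real.log B :=
    Real.log_le_log (by positivity) (h3.trans (h2.trans hNB))
  rw [Real.log_pow] at h4
  have h5 := h4.trans hw
  exact le_of_mul_le_mul_right h5 hlog

/-- the number of integers of the window next to a multiple of `p` -/
noncomputable def cc (n X p : ℕ) : ℝ :=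
  ((((Ico (n + 1) (n + 1 + X)).filter fun m => p ∣ m ∨ p ∣ m - 1 ∨ p ∣ m + 1).card : ℕ) : ℝ)

theorem cc_le (n X p W : ℕ) (hp : p.Prime) (hpW : W < p) (hW : 1 ≤ W) :
    cc n X p ≤ 3 * ((X : ℝ) / W + 1) := by
  classical
  have hp1 : 1 ≤ p := hp.one_lt.le
  have hcl : ∀ b : ℕ, ((#{m ∈ Ico (n + 1) (n + 1 + X) | m ≡ b [MOD p]} : ℕ) : ℝ) ≤ (X : ℝ) / W + 1 := by
    intro b
    refine (card_class_le X (n + 1) p b hp.pos).trans ?_
    have h1 : (X : ℝ) / p ≤ (X : ℝ) / W := by
      apply div_le_div_of_nonneg_left (Nat.cast_nonneg _)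
      · exact_mod_cast hW
      · exact_mod_cast hpW.le
    linarith
  have hsub : (Ico (n + 1) (n + 1 + X)).filter (fun m => p ∣ m ∨ p ∣ m - 1 ∨ p ∣ m + 1) ⊆
      ((Ico (n + 1) (n + 1 + X)).filter (fun m => m ≡ 0 [MOD p]) ∪
      (Ico (n + 1) (n + 1 + X)).filter (fun m => m ≡ 1 [MOD p])) ∪
      (Ico (n + 1) (n + 1 + X)).filter (fun m => m ≡ p - 1 [MOD p]) := by
    intro m hm
    rw [mem_filter] at hm
    have hm1 : 1 ≤ m := by
      have := (mem_Ico.1 hm.1).1
      omega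
    rw [mem_union, mem_union, mem_filter, mem_filter, mem_filter]
    rcases hm.2 with h | h | h
    · exact Or.inl (Or.inl ⟨hm.1, (Nat.modEq_zero_iff_dvd).2 h⟩)
    · exact Or.inl (Or.inr ⟨hm.1, ((Nat.modEq_iff_dvd' hm1).2 h).symm⟩)
    · refine Or.inr ⟨hm.1, ?_⟩
      have h4 : m + 1 ≡ p - 1 + 1 [MOD p] := by
        have h5 : p - 1 + 1 = p := by omega
        rw [h5]
        exact ((Nat.modEq_zero_iff_dvd).2 h).trans ((Nat.modEq_zero_iff_dvd).2 dvd_rfl).symm
      exact Nat.ModEq.add_right_cancel' 1 h4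
  have h1 := card_le_card hsub
  have h2 := card_union_le ((Ico (n + 1) (n + 1 + X)).filter (fun m => m ≡ 0 [MOD p]) ∪
      (Ico (n + 1) (n + 1 + X)).filter (fun m => m ≡ 1 [MOD p]))
      ((Ico (n + 1) (n + 1 + X)).filter (fun m => m ≡ p - 1 [MOD p]))
  have h3 := card_union_le ((Ico (n + 1) (n + 1 + X)).filter (fun m => m ≡ 0 [MOD p]))
      ((Ico (n + 1) (n + 1 + X)).filter (fun m => m ≡ 1 [MOD p]))
  have h4 : ((Ico (n + 1) (n + 1 + X)).filter (fun m => p ∣ m ∨ p ∣ m - 1 ∨ p ∣ m + 1)).card ≤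
      ((Ico (n + 1) (n + 1 + X)).filter (fun m => m ≡ 0 [MOD p])).card +
      ((Ico (n + 1) (n + 1 + X)).filter (fun m => m ≡ 1 [MOD p])).card +
      ((Ico (n + 1) (n + 1 + X)).filter (fun m => m ≡ p - 1 [MOD p])).card := by omega
  have h5 : cc n X p ≤
      (((Ico (n + 1) (n + 1 + X)).filter (fun m => m ≡ 0 [MOD p])).card : ℝ) +
      (((Ico (n + 1) (n + 1 + X)).filter (fun m => m ≡ 1 [MOD p])).card : ℝ) +
      (((Ico (n + 1) (n + 1 + X)).filter (fun m => m ≡ p - 1 [MOD p])).card : ℝ) := by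
    unfold cc
    exact_mod_cast h4
  linarith [hcl 0, hcl 1, hcl (p - 1)]

theorem sum_cc_le (n X W : ℕ) (P : Finset ℕ) (hW : 1 ≤ W) (hP : ∀ p ∈ P, p.Prime ∧ W < p)
    (hn : 1 ≤ n) (w : ℝ) (hw : Real.log (n + X + 1) ≤ w * Real.log W) (hlog : 0 < Real.log W) :
    ∑ p ∈ P, cc n X p ≤ 3 * w * X := by
  classical
  have h1 : ∑ p ∈ P, cc n X p = ∑ m ∈ Ico (n + 1) (n + 1 + X),
      ((P.filter fun p => p ∣ m ∨ p ∣ m - 1 ∨ p ∣ m + 1).card : ℝ) := by
    have h2 : ∀ p ∈ P, cc n X p = ∑ m ∈ Ico (n + 1) (n + 1 + X),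
        (if p ∣ m ∨ p ∣ m - 1 ∨ p ∣ m + 1 then (1 : ℝ) else 0) := by
      intro p _
      unfold cc
      rw [sum_boole]
    rw [sum_congr rfl h2, sum_comm]
    apply sum_congr rfl
    intro m _
    rw [sum_boole]
  rw [h1]
  have h2 : ∀ m ∈ Ico (n + 1) (n + 1 + X),
      ((P.filter fun p => p ∣ m ∨ p ∣ m - 1 ∨ p ∣ m + 1).card : ℝ) ≤ 3 * w := by
    intro m hm
    rw [mem_Ico] at hm
    have hsub : P.filter (fun p => p ∣ m ∨ p ∣ m - 1 ∨ p ∣ m + 1) ⊆
        (P.filter (fun p => p ∣ m) ∪ P.filter (fun p => p ∣ m - 1)) ∪ P.filter (fun p => p ∣ m + 1) := by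
      intro p hp
      rw [mem_filter] at hp
      rw [mem_union, mem_union, mem_filter, mem_filter, mem_filter]
      rcases hp.2 with h | h | h
      · exact Or.inl (Or.inl ⟨hp.1, h⟩)
      · exact Or.inl (Or.inr ⟨hp.1, h⟩)
      · exact Or.inr ⟨hp.1, h⟩
    have k1 := card_le_card hsub
    have k2 := card_union_le (P.filter (fun p => p ∣ m) ∪ P.filter (fun p => p ∣ m - 1))
      (P.filter (fun p => p ∣ m + 1))
    have k3 := card_union_le (P.filter (fun p => p ∣ m)) (P.filter (fun p => p ∣ m - 1))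
    have k4 : (P.filter fun p => p ∣ m ∨ p ∣ m - 1 ∨ p ∣ m + 1).card ≤
        (P.filter (fun p => p ∣ m)).card + (P.filter (fun p => p ∣ m - 1)).card +
        (P.filter (fun p => p ∣ m + 1)).card := by omega
    have k5 : ((P.filter fun p => p ∣ m ∨ p ∣ m - 1 ∨ p ∣ m + 1).card : ℝ) ≤
        ((P.filter (fun p => p ∣ m)).card : ℝ) + ((P.filter (fun p => p ∣ m - 1)).card : ℝ) +
        ((P.filter (fun p => p ∣ m + 1)).card : ℝ) := by exact_mod_cast k4
    have hb : ∀ N : ℕ, N ≤ n + X + 1 → (N : ℝ) ≤ n + X + 1 := by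
      intro N hN
      exact_mod_cast hN
    have j1 := card_dvd_le P W m hW hP (by omega) _ w (hb m (by omega)) hw hlog
    have j2 := card_dvd_le P W (m - 1) hW hP (by omega) _ w (hb (m - 1) (by omega)) hw hlog
    have j3 := card_dvd_le P W (m + 1) hW hP (by omega) _ w (hb (m + 1) (by omega)) hw hlog
    linarith
  refine (sum_le_sum h2).trans ?_
  rw [sum_const, nsmul_eq_mul, Nat.card_Ico]
  have h3 : n + 1 + X - (n + 1) = X := by omega
  rw [h3]
  apply le_of_eq
  ring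

/-- the weight of a member of the window -/
theorem weight_ge {π : ℕ → ℕ → ℝ} {P : Finset ℕ} (hP3 : ∀ p ∈ P, p.Prime ∧ 3 ≤ p) (W : ℕ)
    (hW : 1 ≤ W) (hP : ∀ p ∈ P, p.Prime ∧ W < p) (m : ℕ) (hm : 2 ≤ m) (δ B w : ℝ) (hδ0 : 0 < δ)
    (hδ1 : δ ≤ 1) (h0 : ∀ p ∈ P, π p 0 ≤ 1 - δ) (h1 : ∀ p ∈ P, π p 1 ≤ 1 / 2)
    (h2 : ∀ p ∈ P, π p (p - 1) ≤ 1 / 2) (hmB : ((m + 1 : ℕ) : ℝ) ≤ B)
    (hw : Real.log B ≤ w * Real.log W) (hlog : 0 < Real.log W) :
    Real.exp (-(w * (Real.log (1 / δ) + 2 * Real.log 2))) ≤ ∏ p ∈ P, (1 - rp (VV P) π p m) := by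
  have e0 : ∏ p ∈ P, ((if p ∣ m then δ else 1) * (if p ∣ m - 1 then (1 / 2 : ℝ) else 1) *
      (if p ∣ m + 1 then (1 / 2 : ℝ) else 1)) ≤ ∏ p ∈ P, (1 - rp (VV P) π p m) := by
    apply Finset.prod_le_prod
    · intro p _
      positivity
    · intro p hp
      exact rp_VV hP3 hp m (by omega) δ hδ0.le hδ1 (h0 p hp) (h1 p hp) (h2 p hp)
  refine le_trans ?_ e0
  rw [prod_mul_distrib, prod_mul_distrib]
  have hB : ∀ N : ℕ, N ≤ m + 1 → (N : ℝ) ≤ B := by
    intro N hN
    refine le_trans ?_ hmB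
    exact_mod_cast hN
  have key : ∀ (a : ℝ) (ha0 : 0 < a) (ha1 : a ≤ 1) (N : ℕ) (hN1 : 1 ≤ N) (hN : N ≤ m + 1),
      Real.exp (-(w * Real.log (1 / a))) ≤ ∏ p ∈ P, (if p ∣ N then a else 1) := by
    intro a ha0 ha1 N hN1 hN
    have j1 := card_dvd_le P W N hW hP hN1 B w (hB N hN) hw hlog
    have j2 : ∏ p ∈ P, (if p ∣ N then a else 1) = a ^ (P.filter fun p => p ∣ N).card := by
      rw [← prod_filter, prod_const]
    rw [j2]
    have j3 : a ^ (P.filter fun p => p ∣ N).card =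
        Real.exp (-(((P.filter fun p => p ∣ N).card : ℝ) * Real.log (1 / a))) := by
      rw [one_div, Real.log_inv, mul_neg, neg_neg, mul_comm, Real.exp_mul, Real.exp_log ha0,
        Real.rpow_natCast]
    rw [j3]
    apply Real.exp_le_exp.2
    have j4 : 0 ≤ Real.log (1 / a) := by
      apply Real.log_nonneg
      rw [le_div_iff₀ ha0]
      linarith
    nlinarith
  have k1 := key δ hδ0 hδ1 m (by omega) (by omega)
  have k2 := key (1 / 2) (by norm_num) (by norm_num) (m - 1) (by omega) (by omega)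
  have k3 := key (1 / 2) (by norm_num) (by norm_num) (m + 1) (by omega) (by omega)
  have k4 : (1 : ℝ) / (1 / 2) = 2 := by norm_num
  rw [k4] at k2 k3
  have k5 : Real.exp (-(w * (Real.log (1 / δ) + 2 * Real.log 2))) =
      Real.exp (-(w * Real.log (1 / δ))) * Real.exp (-(w * Real.log 2)) *
        Real.exp (-(w * Real.log 2)) := by
    rw [← Real.exp_add, ← Real.exp_add]
    congr 1
    ring
  rw [k5]
  apply mul_le_mul (mul_le_mul k1 k2 (Real.exp_pos _).le _) k3 (Real.exp_pos _).le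
  · positivity
  · exact (Real.exp_pos _).le.trans k1

/-- the core: bounded differences -/
theorem core {π : ℕ → ℕ → ℝ} (hL : IsLaw resV π) (P : Finset ℕ) (W X n : ℕ) (δ w : ℝ)
    (hW : 2 ≤ W) (hn : 1 ≤ n) (hX : 1 ≤ X) (hP : ∀ p ∈ P, p.Prime ∧ W < p) (hδ0 : 0 < δ) (hδ1 : δ ≤ 1)
    (h0 : ∀ p ∈ P, π p 0 ≤ 1 - δ) (h1 : ∀ p ∈ P, π p 1 ≤ 1 / 2) (h2 : ∀ p ∈ P, π p (p - 1) ≤ 1 / 2)
    (hz : ∀ p ∈ P, ∀ b ∈ resV p, b ≠ 0 → b ≠ 1 → b ≠ p - 1 → π p b = 0)
    (hw : Real.log (n + X + 1) ≤ w * Real.log W) (S : Finset ℕ) (hS : S ⊆ Ico (n + 1) (n + 1 + X))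
    (v : ℕ → ℕ) :
    EA resV π P (ind {y | NS P S y <
        Real.exp (-(w * (Real.log (1 / δ) + 2 * Real.log 2))) * (#S : ℝ) / 2}) v ≤
      Real.exp (-((Real.exp (-(w * (Real.log (1 / δ) + 2 * Real.log 2))) * (#S : ℝ)) ^ 2 /
        (16 * (9 * ((X : ℝ) / W + 1) * w * X)))) := by
  classical
  have hWr : (2 : ℝ) ≤ W := by exact_mod_cast hW
  have hlog : 0 < Real.log W := Real.log_pos (by linarith)
  have hP3 : ∀ p ∈ P, p.Prime ∧ 3 ≤ p := fun p hp => ⟨(hP p hp).1, by have := (hP p hp).2; omega⟩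
  have hXr : (1 : ℝ) ≤ X := by exact_mod_cast hX
  have hnr : (1 : ℝ) ≤ n := by exact_mod_cast hn
  have hlogB : 0 < Real.log (n + X + 1) := Real.log_pos (by linarith)
  have hw0 : 0 < w := by
    by_contra hcon
    push Not at hcon
    have := mul_nonpos_of_nonpos_of_nonneg hcon hlog.le
    linarith
  have hLV := isLaw_VV hL hP3 hz
  rw [EA_VV hP3 hz]
  apply mcd_tail hLV P (NS P S) (fun p => cc n X p)
  · intro p _
    unfold cc
    positivity
  · intro p hp y b1 hb1 b2 hb2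
    have key : ∀ a1 a2 : ℕ, a2 ∈ VV P p →
        NS P S (Function.update y p a1) - NS P S (Function.update y p a2) ≤ cc n X p := by
      intro a1 a2 ha2
      rw [NS_eq, NS_eq, ← sum_sub_distrib]
      have h1 : ∀ m ∈ S, ind (Av P m) (Function.update y p a1) - ind (Av P m) (Function.update y p a2) ≤
          if m ≡ a2 [MOD p] then (1 : ℝ) else 0 := by
        intro m _
        split_ifs with hm
        · have e1 := ind_le_one (Av P m) (Function.update y p a1)
          have e2 := ind_nonneg (Av P m) (Function.update y p a2)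
          linarith
        · have e1 : ind (Av P m) (Function.update y p a1) ≤ ind (Av P m) (Function.update y p a2) := by
            by_cases h2 : Function.update y p a1 ∈ Av P m
            · rw [ind_of_mem h2, ind_of_mem]
              intro r hr
              by_cases hrp : r = p
              · subst hrp
                rw [Function.update_self]
                exact hm
              · have := h2 r hr
                rw [Function.update_of_ne hrp] at this
                rw [Function.update_of_ne hrp]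
                exact this
            · rw [ind_of_not_mem h2]
              exact ind_nonneg _ _
          linarith
      refine (sum_le_sum h1).trans ?_
      rw [sum_boole]
      unfold cc
      have hsub : S.filter (fun m => m ≡ a2 [MOD p]) ⊆
          (Ico (n + 1) (n + 1 + X)).filter fun m => p ∣ m ∨ p ∣ m - 1 ∨ p ∣ m + 1 := by
        intro m hm
        rw [mem_filter] at hm
        have hm1 := hS hm.1
        rw [mem_filter]
        refine ⟨hm1, ?_⟩
        have hm2 : 1 ≤ m := by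
          have := (mem_Ico.1 hm1).1
          omega
        unfold VV at ha2
        rw [if_pos hp, mem_insert, mem_insert, mem_singleton] at ha2
        rcases ha2 with h | h | h
        · left
          rw [h] at hm
          exact (Nat.modEq_zero_iff_dvd).1 hm.2
        · right; left
          rw [h] at hm
          exact (Nat.modEq_iff_dvd' hm2).1 hm.2.symm
        · right; right
          rw [h] at hm
          have h4 : m + 1 ≡ p - 1 + 1 [MOD p] := hm.2.add_right 1
          have h5 : p - 1 + 1 = p := by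
            have := (hP3 p hp).2
            omega
          rw [h5] at h4
          exact (Nat.modEq_zero_iff_dvd).1 (h4.trans ((Nat.modEq_zero_iff_dvd).2 dvd_rfl))
      exact_mod_cast card_le_card hsub
    rw [abs_le]
    have k1 := key b1 b2 hb2
    have k2 := key b2 b1 hb1
    constructor <;> linarith
  · positivity
  · have e1 : EA (VV P) π P (NS P S) v = ∑ m ∈ S, ∏ p ∈ P, (1 - rp (VV P) π p m) := by
      have : NS P S = fun y => ∑ m ∈ S, ind (Av P m) y := by
        funext y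
        exact NS_eq P S y
      rw [this, EA_sum]
      apply sum_congr rfl
      intro m _
      exact EA_Av hLV P m v
    rw [e1]
    have e2 : ∑ m ∈ S, Real.exp (-(w * (Real.log (1 / δ) + 2 * Real.log 2))) ≤
        ∑ m ∈ S, ∏ p ∈ P, (1 - rp (VV P) π p m) := by
      apply sum_le_sum
      intro m hm
      have hm1 := mem_Ico.1 (hS hm)
      apply weight_ge hP3 W (by omega) hP m (by omega) δ (n + X + 1) w hδ0 hδ1 h0 h1 h2 _ hw hlog
      exact_mod_cast (by omega : m + 1 ≤ n + X + 1)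
    rw [sum_const, nsmul_eq_mul, mul_comm] at e2
    exact e2
  · calc ∑ p ∈ P, (cc n X p) ^ 2 ≤ ∑ p ∈ P, 3 * ((X : ℝ) / W + 1) * cc n X p := by
          apply sum_le_sum
          intro p hp
          rw [sq]
          apply mul_le_mul_of_nonneg_right (cc_le n X p W (hP p hp).1 (hP p hp).2 (by omega))
          unfold cc
          positivity
      _ = 3 * ((X : ℝ) / W + 1) * ∑ p ∈ P, cc n X p := by rw [mul_sum]
      _ ≤ 3 * ((X : ℝ) / W + 1) * (3 * w * X) := by
          apply mul_le_mul_of_nonneg_left _ (by positivity)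
          exact sum_cc_le n X W P (by omega) hP hn w hw hlog
      _ = _ := by ring
  · positivity

/-! ## Numerics -/

theorem numr (c K : ℝ) (hc : 0 < c) : ∀ᶠ r : ℝ in atTop,
    8 * Real.exp (2.9725 * r) + 1 ≤ Real.exp (2.98 * r) ∧
    7000 * r ^ 6 ≤ c ^ 2 * Real.exp (0.06 * r - 1) ∧
    5 * r ≤ c * Real.exp (2.285 * r - 1) ∧ 400 ≤ r ∧ K ≤ Real.exp (1.45 * r - 1) := by
  have h1 : ∀ᶠ r : ℝ in atTop, 9 ≤ Real.exp (0.0075 * r) :=
    (Real.tendsto_exp_atTop.comp (tendsto_id.const_mul_atTop (by norm_num : (0 : ℝ) < 0.0075))).eventually_ge_atTop _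
  have h2 : ∀ᶠ r : ℝ in atTop, ‖r ^ 6‖ ≤ (c ^ 2 * Real.exp (-1) / 7000) * ‖Real.exp (0.06 * r)‖ :=
    (isLittleO_pow_exp_pos_mul_atTop 6 (by norm_num : (0 : ℝ) < 0.06)).bound (by positivity)
  have h3 : ∀ᶠ r : ℝ in atTop, ‖r ^ 1‖ ≤ (c * Real.exp (-1) / 5) * ‖Real.exp (2.285 * r)‖ :=
    (isLittleO_pow_exp_pos_mul_atTop 1 (by norm_num : (0 : ℝ) < 2.285)).bound (by positivity)
  have h4 : ∀ᶠ r : ℝ in atTop, K ≤ Real.exp (1.45 * r - 1) := by
    apply Tendsto.eventually_ge_atTop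
    apply Real.tendsto_exp_atTop.comp
    exact tendsto_atTop_add_const_right _ _ (tendsto_id.const_mul_atTop (by norm_num : (0 : ℝ) < 1.45))
  filter_upwards [h1, h2, h3, h4, eventually_ge_atTop 400] with r g1 g2 g3 g4 g5
  refine ⟨?_, ?_, ?_, g5, g4⟩
  · have e1 : Real.exp (2.98 * r) = Real.exp (0.0075 * r) * Real.exp (2.9725 * r) := by
      rw [← Real.exp_add]; congr 1; ring
    rw [e1]
    have e2 : 1 ≤ Real.exp (2.9725 * r) := Real.one_le_exp (by positivity)
    nlinarith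
  · rw [Real.norm_of_nonneg (by positivity), Real.norm_of_nonneg (Real.exp_pos _).le] at g2
    have e1 : Real.exp (0.06 * r - 1) = Real.exp (-1) * Real.exp (0.06 * r) := by
      rw [← Real.exp_add]; congr 1; ring
    rw [e1]
    have e2 : c ^ 2 * Real.exp (-1) / 7000 * Real.exp (0.06 * r) =
      c ^ 2 * (Real.exp (-1) * Real.exp (0.06 * r)) / 7000 := by ring
    rw [e2] at g2
    linarith
  · rw [pow_one, Real.norm_of_nonneg (by positivity), Real.norm_of_nonneg (Real.exp_pos _).le] at g3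
    have e1 : Real.exp (2.285 * r - 1) = Real.exp (-1) * Real.exp (2.285 * r) := by
      rw [← Real.exp_add]; congr 1; ring
    rw [e1]
    have e2 : c * Real.exp (-1) / 5 * Real.exp (2.285 * r) =
      c * (Real.exp (-1) * Real.exp (2.285 * r)) / 5 := by ring
    rw [e2] at g3
    linarith

theorem tl3 : Tendsto (fun u : ℝ => Real.log (Real.log u)) atTop atTop :=
  Real.tendsto_log_atTop.comp Real.tendsto_log_atTop

theorem tr : Tendsto (fun u : ℝ => Real.sqrt (u * Real.log (Real.log u))) atTop atTop := by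
  apply Real.tendsto_sqrt_atTop.comp
  exact tendsto_id.atTop_mul_atTop₀ tl3

theorem numu (c K C c₁ : ℝ) (hc : 0 < c) : ∀ᶠ u : ℝ in atTop,
    (8 * Real.exp (2.9725 * Real.sqrt (u * Real.log (Real.log u))) + 1 ≤
        Real.exp (2.98 * Real.sqrt (u * Real.log (Real.log u))) ∧
    7000 * Real.sqrt (u * Real.log (Real.log u)) ^ 6 ≤
        c ^ 2 * Real.exp (0.06 * Real.sqrt (u * Real.log (Real.log u)) - 1) ∧
    5 * Real.sqrt (u * Real.log (Real.log u)) ≤
        c * Real.exp (2.285 * Real.sqrt (u * Real.log (Real.log u)) - 1) ∧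
    400 ≤ Real.sqrt (u * Real.log (Real.log u)) ∧
    K ≤ Real.exp (1.45 * Real.sqrt (u * Real.log (Real.log u)) - 1)) ∧
    500 ≤ u ∧ 1 ≤ Real.log (Real.log u) ∧ 2.98 * Real.sqrt (u * Real.log (Real.log u)) ≤ u ∧
    (u + 1) * (Real.log (Real.log u) + C) ≤ 0.695 * Real.sqrt (u * Real.log (Real.log u)) *
      (1.45 * Real.sqrt (u * Real.log (Real.log u)) - 1) ∧ c₁ ≤ Real.log u := by
  have h1 := tr.eventually (numr c K hc)
  have h2 : ∀ᶠ u : ℝ in atTop, ‖Real.log u‖ ≤ (1 / 9) * ‖id u‖ :=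
    Real.isLittleO_log_id_atTop.bound (by norm_num)
  filter_upwards [h1, h2, eventually_ge_atTop 500, tl3.eventually_ge_atTop (500 * |C| + 1),
    Real.tendsto_log_atTop.eventually_ge_atTop (max c₁ 1)] with u g1 g2 g3 g4 g5
  have g6 : c₁ ≤ Real.log u := (le_max_left _ _).trans g5
  have g7 : 1 ≤ Real.log u := (le_max_right _ _).trans g5
  have hC := abs_nonneg C
  have hl1 : 1 ≤ Real.log (Real.log u) := by linarith
  set l : ℝ := Real.log (Real.log u) with hl
  set r : ℝ := Real.sqrt (u * l) with hr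
  have hr2 : r ^ 2 = u * l := Real.sq_sqrt (by nlinarith)
  have hr400 := g1.2.2.2.1
  have hll : l ≤ Real.log u := by
    have := Real.log_le_sub_one_of_pos (show 0 < Real.log u by linarith)
    linarith
  rw [Real.norm_of_nonneg (by linarith), id, Real.norm_of_nonneg (by linarith)] at g2
  refine ⟨g1, g3, hl1, ?_, ?_, g6⟩
  · have h3 : r ≤ u / 3 := by
      rw [hr]
      apply Real.sqrt_le_iff.2
      constructor
      · linarith
      · have : l ≤ u / 9 := by linarith
        nlinarith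
    linarith
  · have e1 : (u + 1) * (l + C) ≤ (u + 1) * (l + |C|) :=
      mul_le_mul_of_nonneg_left (by linarith [le_abs_self C]) (by linarith)
    refine e1.trans ?_
    have e2 : 0.695 * r * (1.45 * r - 1) = 1.00775 * r ^ 2 - 0.695 * r := by ring
    rw [e2]
    have e3 : 0.695 * r ≤ 0.00175 * r ^ 2 := by nlinarith
    have e4 : u * (500 * |C|) ≤ u * l := mul_le_mul_of_nonneg_left (by linarith) (by linarith)
    have e5 : 500 * l ≤ u * l := mul_le_mul_of_nonneg_right g3 (by linarith)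
    have e6 : 500 * |C| ≤ u * l := by nlinarith
    have e7 : (u + 1) * (l + |C|) = u * l + u * |C| + l + |C| := by ring
    rw [e7, hr2]
    rw [hr2] at e3
    have e8 : |C| ≤ 0.001 * (u * l) := by nlinarith
    linarith

theorem stmt_U1 : Stmt_U1 := by
  intro π hL c₁ hc₁ hex
  obtain ⟨P0, hP0⟩ := hex
  obtain ⟨c, hc, W0, hW02, hlow⟩ := low 2.05 (by norm_num) (by norm_num)
  set C : ℝ := 2 * Real.log 2 - Real.log c₁ with hC
  set K : ℝ := (P0 : ℝ) + W0 + 4 with hK
  have hlogn : Tendsto (fun n : ℕ => Real.log (n : ℝ)) atTop atTop :=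
    Real.tendsto_log_atTop.comp tendsto_natCast_atTop_atTop
  obtain ⟨n0, hn0⟩ := eventually_atTop.1 ((hlogn.eventually (numu c K C c₁ hc)).and
    (eventually_ge_atTop 16))
  refine ⟨n0, ?_⟩
  intro n hn v v'
  obtain ⟨⟨⟨a1, a2, a3, a4, a5⟩, a6, a7, a8, a9, a10⟩, hn16⟩ := hn0 n hn
  have hn16' : (16 : ℝ) ≤ n := by exact_mod_cast hn16
  have hrt : Real.sqrt (Real.log n * Real.log (Real.log (Real.log n))) = rt n := rfl
  rw [hrt] at a1 a2 a3 a4 a5 a8 a9
  set u : ℝ := Real.log n with hu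
  set l : ℝ := Real.log (Real.log u) with hl
  set r : ℝ := rt n with hr
  have hr2 : r ^ 2 = u * l := by
    rw [hr]
    unfold rt
    rw [Real.sq_sqrt]
    rw [← hu, ← hl]
    positivity
  have hexpu : Real.exp u = n := Real.exp_log (by linarith)
  -- W and X
  have hWle : (Wn n : ℝ) ≤ Real.exp (1.45 * r) := Nat.floor_le (Real.exp_pos _).le
  have hWge : Real.exp (1.45 * r) < Wn n + 1 := Nat.lt_floor_add_one _
  have hXle : (Xn n : ℝ) ≤ Real.exp (2.98 * r) := Nat.floor_le (Real.exp_pos _).le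
  have hXge : Real.exp (2.98 * r) < Xn n + 1 := Nat.lt_floor_add_one _
  set W : ℕ := Wn n with hW
  set X : ℕ := Xn n with hX
  have hexp2 : ∀ t : ℝ, 1 ≤ t → Real.exp (t - 1) ≤ Real.exp t - 1 := by
    intro t ht
    have h1 : Real.exp t = Real.exp 1 * Real.exp (t - 1) := by
      rw [← Real.exp_add]; congr 1; ring
    have h2 := Real.exp_one_gt_d9
    have h3 : 1 ≤ Real.exp (t - 1) := Real.one_le_exp (by linarith)
    nlinarith
  have hWlow : Real.exp (1.45 * r - 1) ≤ W := by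
    have := hexp2 (1.45 * r) (by linarith)
    linarith
  have hXlow : Real.exp (2.98 * r - 1) ≤ X := by
    have := hexp2 (2.98 * r) (by linarith)
    linarith
  have hWK : K ≤ W := a5.trans hWlow
  have hP0r : (0 : ℝ) ≤ P0 := Nat.cast_nonneg _
  have hW0r : (0 : ℝ) ≤ W0 := Nat.cast_nonneg _
  have hWP0 : P0 ≤ W := by
    have : (P0 : ℝ) ≤ W := by linarith
    exact_mod_cast this
  have hWW0 : W0 ≤ W := by
    have : (W0 : ℝ) ≤ W := by linarith
    exact_mod_cast this
  have hW4 : 4 ≤ W := by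
    have : ((4 : ℕ) : ℝ) ≤ W := by push_cast; linarith
    exact_mod_cast this
  have hW4r : (4 : ℝ) ≤ W := by exact_mod_cast hW4
  have hWX : (W : ℝ) ≤ X := by
    have h1 : Real.exp (1.45 * r) ≤ Real.exp (2.98 * r - 1) := Real.exp_le_exp.2 (by linarith)
    linarith
  have hX1 : 1 ≤ X := by
    have : ((1 : ℕ) : ℝ) ≤ X := by push_cast; linarith
    exact_mod_cast this
  have hXn : X ≤ n := by
    have h1 : Real.exp (2.98 * r) ≤ Real.exp u := Real.exp_le_exp.2 a8
    have : (X : ℝ) ≤ n := by linarith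
    exact_mod_cast this
  have hlogW : 1.45 * r - 1 ≤ Real.log W := by
    have h1 := Real.log_le_log (Real.exp_pos _) hWlow
    rwa [Real.log_exp] at h1
  have hlogW1 : Real.log ((W + 1 : ℕ) : ℝ) ≤ 1.45 * r + 1 := by
    have h1 : ((W + 1 : ℕ) : ℝ) ≤ Real.exp (1.45 * r + 1) := by
      push_cast
      rw [Real.exp_add]
      have h2 := Real.exp_one_gt_d9
      have h3 : 1 ≤ Real.exp (1.45 * r) := Real.one_le_exp (by linarith)
      nlinarith
    have h2 := Real.log_le_log (by positivity) h1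
    rwa [Real.log_exp] at h2
  have hlogW1pos : 0 < Real.log ((W + 1 : ℕ) : ℝ) := Real.log_pos (by push_cast; linarith)
  -- the sieve
  have hpow : ((W + 1 : ℕ) : ℝ) ^ (2.05 : ℝ) ≤ X := by
    have h1 : ((W + 1 : ℕ) : ℝ) ≤ 2 * Real.exp (1.45 * r) := by
      push_cast
      have h3 : 1 ≤ Real.exp (1.45 * r) := Real.one_le_exp (by linarith)
      linarith
    have h2 : ((W + 1 : ℕ) : ℝ) ^ (2.05 : ℝ) ≤ (2 * Real.exp (1.45 * r)) ^ (2.05 : ℝ) :=
      Real.rpow_le_rpow (Nat.cast_nonneg _) h1 (by norm_num)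
    have h3 : (2 * Real.exp (1.45 * r)) ^ (2.05 : ℝ) ≤ 8 * Real.exp (2.9725 * r) := by
      rw [Real.mul_rpow (by norm_num) (Real.exp_pos _).le, ← Real.exp_mul]
      have h4 : (2 : ℝ) ^ (2.05 : ℝ) ≤ 2 ^ (3 : ℝ) :=
        Real.rpow_le_rpow_of_exponent_le (by norm_num) (by norm_num)
      have h5 : (2 : ℝ) ^ (3 : ℝ) = 8 := by norm_num
      have h6 : 1.45 * r * 2.05 = 2.9725 * r := by ring
      rw [h6]
      exact mul_le_mul_of_nonneg_right (by linarith) (Real.exp_pos _).le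
    linarith
  have hS := hlow (W + 1) (by omega) X hpow (n + 1) v
  set S : Finset ℕ := Sv (W + 1) X (n + 1) v with hSdef
  have hSI : S ⊆ Ico (n + 1) (n + 1 + X) := by rw [hSdef]; unfold Sv; exact filter_subset _ _
  have hXr : (0 : ℝ) < X := by exact_mod_cast hX1
  have hSlow : c * X / (1.45 * r + 1) ≤ (#S : ℝ) := by
    refine le_trans ?_ hS
    exact div_le_div_of_nonneg_left (by positivity) hlogW1pos hlogW1
  -- the primes
  set P : Finset ℕ := Pool.Agent.Work.MP_3a3367_nt_h29.PP W (Nat.sqrt (n + X)) with hP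
  have hPmem : ∀ p ∈ P, p.Prime ∧ W < p ∧ p ≤ n := by
    intro p hp
    rw [hP] at hp
    unfold Pool.Agent.Work.MP_3a3367_nt_h29.PP at hp
    rw [mem_filter, mem_Ioc] at hp
    refine ⟨hp.2, hp.1.1, hp.1.2.trans ?_⟩
    have h1 : n + X ≤ n * n := by nlinarith
    exact (Nat.sqrt_le_sqrt h1).trans (by rw [Nat.sqrt_eq])
  have hllu : 0 < Real.log u := Real.log_pos (by linarith)
  set δ : ℝ := c₁ / Real.log u with hδ
  have hδ0 : 0 < δ := by positivity
  have hδ1 : δ ≤ 1 := by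
    rw [hδ, div_le_one hllu]
    exact a10
  have hlogδ : Real.log (1 / δ) + 2 * Real.log 2 = l + C := by
    rw [hδ, one_div_div, Real.log_div hllu.ne' hc₁.ne', hC, hl]
    ring
  set w : ℝ := (u + 1) / (1.45 * r - 1) with hw
  have hr1 : 0 < 1.45 * r - 1 := by linarith
  have hlogB : Real.log (n + X + 1) ≤ w * Real.log W := by
    have h1 : Real.log ((n : ℝ) + X + 1) ≤ u + 1 := by
      have h2 : (n : ℝ) + X + 1 ≤ Real.exp (u + 1) := by
        rw [Real.exp_add, hexpu]
        have h3 := Real.exp_one_gt_d9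
        have h4 : (X : ℝ) ≤ n := by exact_mod_cast hXn
        nlinarith
      have h3 := Real.log_le_log (by positivity) h2
      rwa [Real.log_exp] at h3
    refine h1.trans ?_
    have h2 : w * (1.45 * r - 1) = u + 1 := by
      rw [hw]
      field_simp
    rw [← h2]
    apply mul_le_mul_of_nonneg_left hlogW
    rw [hw]
    positivity
  have hwE : w * (Real.log (1 / δ) + 2 * Real.log 2) ≤ 0.695 * r := by
    rw [hlogδ, hw, div_mul_eq_mul_div, div_le_iff₀ hr1]
    exact a9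
  have hπ : ∀ p ∈ P, π p 0 ≤ 1 - δ ∧ π p 1 ≤ 1 / 2 ∧ π p (p - 1) ≤ 1 / 2 ∧
      ∀ b ∈ resV p, b ≠ 0 → b ≠ 1 → b ≠ p - 1 → π p b = 0 := by
    intro p hp
    obtain ⟨h1, h2, h3⟩ := hPmem p hp
    obtain ⟨k1, k2, k3, k4⟩ := hP0 p h1 (by omega)
    refine ⟨?_, k2, k3, k4⟩
    refine k1.trans ?_
    have hp4 : (4 : ℝ) ≤ p := by
      have : 4 ≤ p := by omega
      exact_mod_cast this
    have hpn : (p : ℝ) ≤ n := by exact_mod_cast h3
    have hlp1 : 1 < Real.log p := by
      have h4 : Real.log (Real.exp 1) < Real.log p := by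
        apply Real.log_lt_log (Real.exp_pos _)
        have := Real.exp_one_lt_d9
        linarith
      rwa [Real.log_exp] at h4
    have hllp : 0 < Real.log (Real.log p) := Real.log_pos hlp1
    have h5 : Real.log (Real.log p) ≤ Real.log u := by
      apply Real.log_le_log (by linarith)
      rw [hu]
      exact Real.log_le_log (by linarith) hpn
    have h6 : δ ≤ c₁ / Real.log (Real.log p) := by
      rw [hδ]
      exact div_le_div_of_nonneg_left hc₁.le hllp h5
    linarith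
  have hcore := core hL P W X n δ w (by omega) (by omega) hX1
    (fun p hp => ⟨(hPmem p hp).1, (hPmem p hp).2.1⟩) hδ0 hδ1 (fun p hp => (hπ p hp).1)
    (fun p hp => (hπ p hp).2.1) (fun p hp => (hπ p hp).2.2.1) (fun p hp => (hπ p hp).2.2.2)
    hlogB S hSI v'
  -- comparison
  set ρ : ℝ := Real.exp (-(w * (Real.log (1 / δ) + 2 * Real.log 2))) with hρ
  have hρlow : Real.exp (-(0.695 * r)) ≤ ρ := Real.exp_le_exp.2 (neg_le_neg hwE)
  have hρ0 : 0 < ρ := Real.exp_pos _
  have hm0 : Real.exp (-(0.695 * r)) * (c * X / (1.45 * r + 1)) ≤ ρ * (#S : ℝ) :=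
    mul_le_mul hρlow hSlow (by positivity) hρ0.le
  have hmono : EA resV π P (ind {w | NS P S w < 1}) v' ≤
      EA resV π P (ind {y | NS P S y < ρ * (#S : ℝ) / 2}) v' := by
    apply EA_mono hL.nonneg
    intro y
    apply ind_mono
    intro hy
    have h1 : NS P S y < 1 := hy
    show NS P S y < ρ * (#S : ℝ) / 2
    refine lt_of_lt_of_le h1 ?_
    have h2 : 2 ≤ Real.exp (-(0.695 * r)) * (c * X / (1.45 * r + 1)) := by
      rw [← mul_div_assoc, le_div_iff₀ (by linarith)]
      have h3 : c * Real.exp (2.285 * r - 1) ≤ Real.exp (-(0.695 * r)) * (c * X) := by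
        have h4 : Real.exp (2.285 * r - 1) = Real.exp (-(0.695 * r)) * Real.exp (2.98 * r - 1) := by
          rw [← Real.exp_add]; congr 1; ring
        rw [h4]
        have h5 := mul_le_mul_of_nonneg_left hXlow
          (show 0 ≤ c * Real.exp (-(0.695 * r)) by positivity)
        linarith
      linarith
    linarith
  refine hmono.trans (hcore.trans ?_)
  have hn2 : (n : ℝ) ^ (-2 : ℝ) = Real.exp (-(2 * u)) := by
    rw [Real.rpow_def_of_pos (by linarith)]
    congr 1
    rw [← hu]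
    ring
  rw [hn2]
  apply Real.exp_le_exp.2
  apply neg_le_neg
  have hw0 : 0 < w := by rw [hw]; positivity
  have hWr : (0 : ℝ) < W := by linarith
  rw [le_div_iff₀ (by positivity)]
  have h1 : (Real.exp (-(0.695 * r)) * (c * X / (1.45 * r + 1))) ^ 2 ≤ (ρ * (#S : ℝ)) ^ 2 :=
    pow_le_pow_left₀ (by positivity) hm0 2
  refine le_trans ?_ h1
  have h2 : (X : ℝ) / W + 1 ≤ 2 * X / W := by
    rw [div_add_one hWr.ne']
    exact div_le_div_of_nonneg_right (by linarith) hWr.le
  have h3 : 2 * u * (16 * (9 * ((X : ℝ) / W + 1) * w * X)) ≤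
      2 * u * (16 * (9 * (2 * X / W) * w * X)) := by gcongr
  refine h3.trans ?_
  have h4 : 2 * u * (16 * (9 * (2 * X / W) * w * X)) = 576 * u * w * ((X : ℝ) ^ 2 / W) := by
    field_simp
    ring
  have h5 : (Real.exp (-(0.695 * r)) * (c * X / (1.45 * r + 1))) ^ 2 =
      Real.exp (-(1.39 * r)) * c ^ 2 * (X : ℝ) ^ 2 / (1.45 * r + 1) ^ 2 := by
    rw [mul_pow, ← Real.exp_nat_mul]
    have : ((2 : ℕ) : ℝ) * -(0.695 * r) = -(1.39 * r) := by push_cast; ring
    rw [this]
    field_simp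
  rw [h4, h5, ← mul_div_assoc, div_le_div_iff₀ hWr (by positivity)]
  have h6 : w ≤ u + 1 := by
    rw [hw]
    exact div_le_self (by linarith) (by linarith)
  have h7 : u ≤ r ^ 2 := by
    rw [hr2]
    nlinarith
  have h8 : 576 * u * w * (1.45 * r + 1) ^ 2 ≤ 7000 * r ^ 6 := by
    have e1 : w ≤ 2 * r ^ 2 := by nlinarith
    have e2 : (1.45 * r + 1) ^ 2 ≤ 6.0025 * r ^ 2 := by nlinarith
    calc 576 * u * w * (1.45 * r + 1) ^ 2 ≤ 576 * (r ^ 2) * (2 * r ^ 2) * (6.0025 * r ^ 2) := by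
          gcongr
      _ ≤ 7000 * r ^ 6 := by nlinarith [pow_pos (show 0 < r by linarith) 6]
  have h9 : Real.exp (0.06 * r - 1) ≤ Real.exp (-(1.39 * r)) * W := by
    have e1 : Real.exp (0.06 * r - 1) = Real.exp (-(1.39 * r)) * Real.exp (1.45 * r - 1) := by
      rw [← Real.exp_add]; congr 1; ring
    rw [e1]
    exact mul_le_mul_of_nonneg_left hWlow (Real.exp_pos _).le
  have h10 : 576 * u * w * (1.45 * r + 1) ^ 2 ≤ c ^ 2 * (Real.exp (-(1.39 * r)) * W) := by
    have := mul_le_mul_of_nonneg_left h9 (show 0 ≤ c ^ 2 by positivity)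
    linarith
  have h11 := mul_le_mul_of_nonneg_right h10 (show 0 ≤ (X : ℝ) ^ 2 by positivity)
  linarith

end Pool.Agent.Work.MP_b0c12c_nt_upper
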