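import Pool.Agent.Work.MP_b0c12c_nt_upper.Interface
import Pool.Agent.Work.MP_3a3367_nt_h29.FIN

/-!
# Block U2: the almost sure statement
-/

set_option autoImplicit false

namespace Pool.Agent.Work.MP_b0c12c_nt_upper

open Finset Filter Topology MeasureTheory ProbabilityTheory
open Pool.Agent.Work.MP_b0c12c_nt_univ (E1 EA ind IsLaw EA_mono EA_mono_on EA_le_const EA_sdiff
  ind_dependsOn ind_mono ind_of_mem ind_of_not_mem ind_nonneg resV resπ stmt_PRU)
open Pool.Agent.Work.MP_b0c12c_nt_univ.INUaux (Pr)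
open Pool.Agent.Work.MP_3a3367_nt_h29 (Sv PP NS window_all NS_dep res res_modEq mem_Pr)

theorem NS_Sv_succ (P : Finset ℕ) (W X a : ℕ) (v w : ℕ → ℕ) :
    NS P (Sv (W + 1) X a v) w ≤ NS P (Sv W X a v) w := by
  classical
  unfold NS
  have : ((Sv (W + 1) X a v).filter fun m => ∀ p ∈ P, ¬ m ≡ w p [MOD p]).card ≤
      ((Sv W X a v).filter fun m => ∀ p ∈ P, ¬ m ≡ w p [MOD p]).card := by
    apply card_le_card
    intro m hm
    unfold Sv at hm ⊢
    simp only [mem_filter] at hm ⊢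
    refine ⟨⟨hm.1.1, fun p hp => hm.1.2 p ?_⟩, hm.2⟩
    have hpp : p.Prime := by
      unfold Pr at hp
      exact (mem_filter.1 hp).2
    have h1 := (mem_Pr hpp).1 hp
    exact (mem_Pr hpp).2 (by omega)
  exact_mod_cast this

/-- all primes up to `Y` -/
theorem window_all' {V : ℕ → Finset ℕ} {π : ℕ → ℕ → ℝ} (hL : IsLaw V π) (W X Y a : ℕ) (t δ : ℝ)
    (h : ∀ v v' : ℕ → ℕ, EA V π (PP W Y) (ind {w | NS (PP W Y) (Sv (W + 1) X a v) w < t}) v' ≤ δ)
    (v : ℕ → ℕ) :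
    EA V π (Pr Y) (ind {w | NS (Pr Y) (Ico a (a + X)) w < t}) v ≤ δ := by
  classical
  refine window_all hL W X Y a t δ (fun v => le_trans ?_ (h v v)) v
  apply EA_mono hL.nonneg
  intro w
  apply ind_mono
  intro hw
  exact lt_of_le_of_lt (NS_Sv_succ _ _ _ _ _ _) hw

theorem modelLaw {Ω : Type*} [MeasurableSpace Ω] {μ : Measure Ω}
    [IsProbabilityMeasure μ] {u : ℕ → Ω → ℤ} (hm : ∀ p, Measurable (u p))
    (h3 : ∀ p : ℕ, p.Prime → ∀ᵐ ω ∂μ, u p ω = -1 ∨ u p ω = 0 ∨ u p ω = 1)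
    {c₁ c₂ : ℝ}
    (hc : ∀ᶠ p : ℕ in atTop, p.Prime → ∀ s : ℤ, s = 1 ∨ s = -1 →
      c₁ / Real.log (Real.log p) ≤ μ.real {ω | u p ω = s} ∧
      μ.real {ω | u p ω = s} ≤ c₂ / Real.log (Real.log p)) :
    ∃ P0 : ℕ, ∀ p : ℕ, p.Prime → P0 ≤ p →
      resπ μ u p 0 ≤ 1 - c₁ / Real.log (Real.log p) ∧ resπ μ u p 1 ≤ 1 / 2 ∧
      resπ μ u p (p - 1) ≤ 1 / 2 ∧
      ∀ b ∈ resV p, b ≠ 0 → b ≠ 1 → b ≠ p - 1 → resπ μ u p b = 0 := by
  have hlim : Tendsto (fun p : ℕ => c₂ / Real.log (Real.log p)) atTop (𝓝 0) :=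
    ((Real.tendsto_log_atTop.comp Real.tendsto_log_atTop).comp
      tendsto_natCast_atTop_atTop).const_div_atTop c₂
  have hev := hlim.eventually (ge_mem_nhds (show (0 : ℝ) < 1 / 2 by norm_num))
  obtain ⟨P0, hP0⟩ := eventually_atTop.1 (hc.and (hev.and (eventually_ge_atTop 3)))
  refine ⟨P0, fun p hp hpP => ?_⟩
  obtain ⟨hc', hhalf, hp3⟩ := hP0 p hpP
  have hp3' : (3 : ℤ) ≤ p := by exact_mod_cast hp3
  have hmono : ∀ A B : Set Ω, (∀ ω, (u p ω = -1 ∨ u p ω = 0 ∨ u p ω = 1) → ω ∈ A → ω ∈ B) →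
      μ.real A ≤ μ.real B := by
    intro A B hAB
    have h1 : A ≤ᵐ[μ] B := by
      filter_upwards [h3 p hp] with ω hω hωA
      exact hAB ω hω hωA
    exact ENNReal.toReal_mono (measure_ne_top μ B) (measure_mono_ae h1)
  have hdvd : ∀ x : ℤ, |x| < p → (p : ℤ) ∣ x → x = 0 := fun x hx hd =>
    Int.eq_zero_of_abs_lt_dvd hd hx
  refine ⟨?_, ?_, ?_, ?_⟩
  · unfold resπ
    rw [if_pos hp]
    have h1 : μ.real {ω | (p : ℤ) ∣ u p ω - ((0 : ℕ) : ℤ)} ≤ μ.real {ω | u p ω = 1}ᶜ := by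
      apply hmono
      intro ω hω hd hω1
      simp only [Set.mem_ofPred_eq] at hd hω1
      rw [hω1] at hd
      have := hdvd _ (by norm_num; omega) hd
      norm_num at this
    have hms : MeasurableSet {ω | u p ω = 1} := hm p (MeasurableSet.singleton 1)
    rw [probReal_compl_eq_one_sub hms] at h1
    have h2 := (hc' hp 1 (Or.inl rfl)).1
    exact h1.trans (by linarith)
  · unfold resπ
    rw [if_pos hp]
    have h1 : μ.real {ω | (p : ℤ) ∣ u p ω - ((1 : ℕ) : ℤ)} ≤ μ.real {ω | u p ω = 1} := by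
      apply hmono
      intro ω hω hd
      simp only [Set.mem_ofPred_eq] at hd ⊢
      have := hdvd _ (by
        rcases hω with h | h | h <;> rw [h] <;> norm_num [abs_lt] <;> omega) hd
      push_cast at this
      omega
    have h2 := (hc' hp 1 (Or.inl rfl)).2
    exact h1.trans (h2.trans hhalf)
  · unfold resπ
    rw [if_pos hp]
    have h1 : μ.real {ω | (p : ℤ) ∣ u p ω - ((p - 1 : ℕ) : ℤ)} ≤ μ.real {ω | u p ω = -1} := by
      apply hmono
      intro ω hω hd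
      simp only [Set.mem_ofPred_eq] at hd ⊢
      rw [Nat.cast_sub (by omega)] at hd
      push_cast at hd
      have hd' : (p : ℤ) ∣ u p ω + 1 := by
        have : u p ω - (p - 1) = (u p ω + 1) - p := by ring
        rw [this] at hd
        exact (dvd_sub_self_right).1 hd
      have := hdvd _ (by
        rcases hω with h | h | h <;> rw [h] <;> norm_num [abs_lt] <;> omega) hd'
      omega
    have h2 := (hc' hp (-1) (Or.inr rfl)).2
    exact h1.trans (h2.trans hhalf)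
  · intro b hb hb0 hb1 hb2
    unfold resV at hb
    rw [if_pos hp, mem_range] at hb
    unfold resπ
    rw [if_pos hp]
    have h1 : μ.real {ω | (p : ℤ) ∣ u p ω - (b : ℤ)} ≤ μ.real (∅ : Set Ω) := by
      apply hmono
      intro ω hω hd
      exfalso
      simp only [Set.mem_ofPred_eq] at hd
      have hbp : (b : ℤ) + 2 ≤ p := by omega
      have hb2' : (2 : ℤ) ≤ b := by omega
      have := hdvd _ (by
        rw [abs_lt]
        rcases hω with h | h | h <;> rw [h] <;> constructor <;> omega) hd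
      omega
    rw [measureReal_empty] at h1
    exact le_antisymm h1 measureReal_nonneg

theorem stmt_U2.{u} (hU1 : Stmt_U1) : Stmt_U2.{u} := by
  classical
  intro Ω _ μ _ u hm hI h3 c₁ c₂ hc₁ hc
  obtain ⟨hLaw, hPR⟩ := stmt_PRU μ u hm hI
  obtain ⟨n0, hn0⟩ := hU1 (resπ μ u) hLaw c₁ hc₁ (modelLaw hm h3 hc)
  -- the events
  set Y : ℕ → ℕ := fun n => Nat.sqrt (n + Xn n) with hY
  set F : ℕ → Set (ℕ → ℕ) :=
    fun n => {w | NS (Pr (Y n)) (Ico (n + 1) (n + 1 + Xn n)) w < 1} with hF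
  have hprob : ∀ n, n0 ≤ n → μ.real {ω | res u ω ∈ F n} ≤ (n : ℝ) ^ (-2 : ℝ) := by
    intro n hn
    have h1 := window_all' hLaw (Wn n) (Xn n) (Y n) (n + 1) 1 _ (hn0 n hn) (fun _ => 0)
    have h2 := (hPR (Pr (Y n)) (fun p hp => (mem_filter.1 hp).2) (F n) (NS_dep _ _ _)).2
    have h3 : {ω | res u ω ∈ F n} = {ω | (fun p => (u p ω % p).toNat) ∈ F n} := rfl
    rw [h3, h2]
    exact h1
  -- Borel-Cantelli
  set s : ℕ → Set Ω := fun n => if n0 ≤ n then {ω | res u ω ∈ F n} else ∅ with hs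
  have hsum : ∑' n, μ (s n) ≠ ⊤ := by
    have hle : ∀ n, μ (s n) ≤ ENNReal.ofReal ((n : ℝ) ^ (-2 : ℝ)) := by
      intro n
      simp only [hs]
      split_ifs with h
      · rw [← ofReal_measureReal]
        exact ENNReal.ofReal_le_ofReal (hprob n h)
      · simp
    have hsm : Summable fun n : ℕ => (n : ℝ) ^ (-2 : ℝ) := by
      rw [Real.summable_nat_rpow]
      norm_num
    refine ne_top_of_le_ne_top ?_ (ENNReal.tsum_le_tsum hle)
    rw [← ENNReal.ofReal_tsum_of_nonneg (fun n => by positivity) hsm]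
    exact ENNReal.ofReal_ne_top
  filter_upwards [ae_eventually_notMem hsum] with ω hω
  filter_upwards [hω, eventually_ge_atTop n0, eventually_ge_atTop 1] with n hn1' hn2 hn3
  simp only [hs, if_pos hn2] at hn1'
  have h1 : ¬ NS (Pr (Y n)) (Ico (n + 1) (n + 1 + Xn n)) (res u ω) < 1 := hn1'
  rw [not_lt] at h1
  unfold NS at h1
  have h2 : 0 < ((Ico (n + 1) (n + 1 + Xn n)).filter fun m => ∀ p ∈ Pr (Y n),
      ¬ m ≡ res u ω p [MOD p]).card := by
    have : (0 : ℝ) < ((((Ico (n + 1) (n + 1 + Xn n)).filter fun m => ∀ p ∈ Pr (Y n),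
      ¬ m ≡ res u ω p [MOD p]).card : ℕ) : ℝ) := lt_of_lt_of_le one_pos h1
    exact_mod_cast this
  obtain ⟨m, hmm⟩ := card_pos.1 h2
  rw [mem_filter, mem_Ico] at hmm
  obtain ⟨⟨h4, h5⟩, h6⟩ := hmm
  refine ⟨m, ⟨by omega, ?_⟩, by omega, by omega⟩
  intro p hp hpm h7
  have h8 : p ≤ Y n := by
    rw [hY]
    apply Nat.le_sqrt.2
    omega
  exact h6 p ((mem_Pr hp).2 h8) ((res_modEq hp ω m).2 h7)

end Pool.Agent.Work.MP_b0c12c_nt_upper
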