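import Pool.Agent.Work.MP_b0c12c_nt_upper.Interface

/-!
# Block U3: from windows to gaps
-/

set_option autoImplicit false

namespace Pool.Agent.Work.MP_b0c12c_nt_upper

open Finset Filter
open scoped Classical

theorem stmt_U3 : Stmt_U3 := by
  intro S hS
  obtain ⟨n0, hn0⟩ := eventually_atTop.1 hS
  have hinf : S.Infinite := by
    rw [Set.infinite_iff_exists_gt]
    intro a
    obtain ⟨m, hm, h1, _⟩ := hn0 (max a n0) (le_max_right _ _)
    exact ⟨m, hm, lt_of_le_of_lt (le_max_left _ _) h1⟩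
  refine ⟨hinf, ?_⟩
  have hmono : StrictMono (Nat.nth (· ∈ S)) := Nat.nth_strictMono hinf
  have hgap : ∀ k : ℕ, n0 ≤ Nat.nth (· ∈ S) k →
      Nat.nth (· ∈ S) (k + 1) ≤ Nat.nth (· ∈ S) k + Xn (Nat.nth (· ∈ S) k) := by
    intro k hk
    obtain ⟨m, hm, h1, h2⟩ := hn0 _ hk
    refine le_trans ?_ h2
    by_contra h
    push Not at h
    have h3 : Nat.nth (· ∈ S) (Nat.count (· ∈ S) m) = m := Nat.nth_count hm
    have h4 : Nat.count (· ∈ S) m < k + 1 := by
      rw [← h3] at h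
      exact hmono.lt_iff_lt.1 h
    have h5 : k < Nat.count (· ∈ S) m := by
      rw [← h3] at h1
      exact hmono.lt_iff_lt.1 h1
    omega
  filter_upwards [hmono.tendsto_atTop.eventually_ge_atTop n0] with k hk
  set n := Nat.nth (· ∈ S) k with hn
  have h1 : (Nat.nth (· ∈ S) (k + 1) : ℝ) ≤ n + Xn n := by exact_mod_cast hgap k hk
  have h2 : (Xn n : ℝ) ≤ Real.exp (2.98 * rt n) := Nat.floor_le (Real.exp_pos _).le
  have h3 : 0 ≤ rt n := Real.sqrt_nonneg _
  have h4 : Real.exp (2.98 * rt n) ≤ Real.exp (3 * rt n) :=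
    Real.exp_le_exp.2 (by nlinarith)
  have h5 : Real.exp (3 * rt n) = Real.exp (3 * Real.sqrt (Real.log n *
      Real.log (Real.log (Real.log n)))) := rfl
  rw [← h5]
  linarith

end Pool.Agent.Work.MP_b0c12c_nt_upper
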